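import Pool.Agent.Lib.MP_df705a_gt.CGN.Z

open scoped Manifold ContDiff
open Pool.Agent.Lib.MP_df705a_gt.SVS
open Pool.Agent.Lib.MP_df705a_gt.CG
open Pool.Agent.Lib.MP_df705a_gt.Twist (PosScal)
open Pool.Agent.Lib.MP_df705a_gt.Pin (StableCover)

/-- **A closed aspherical manifold with combable fundamental group, for example with automatic
fundamental group, has no metric of positive scalar curvature.** More generally: the fundamental
group of a closed aspherical manifold with a metric of positive scalar curvature has no fillings of
subexponential weight. The manifold need not be orientable.

Let `M` be a closed `n`-manifold with a smooth covering `(q, s) : ℝ²ᵐ → M × ℝᵏ` (by Stallings every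
closed aspherical manifold has such a covering for every `k ≥ 1` with `n + k = 2 m ≥ 6`; for `k = 0`
this means that `ℝ²ᵐ` is the universal covering). Let `Γ` be the group of the deck transformations of
this universal covering (`UDeck`): the fundamental group of `M`. Let `ℓ` be a proper length function on
`Γ`: the balls `ℓ ≤ r` are finite; for example a word length.

Suppose that one of the following two conditions holds. Then `M` has no metric of positive scalar
curvature.

(a) `Γ` has a combing of polynomial length (`IsCombing`): paths `t ↦ σ t g` from `1` to `g` with bounded
steps, of length at most polynomial in `ℓ g`, such that `σ t g` and `σ t h` are uniformly close if `g` and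
`h` are close. All automatic groups have combings of linear length; no equivariance, no convexity and
no two-sided condition is assumed.

(b) `Γ` has fillings of subexponential weight in the dimensions less than `n` (`Fillable`): for every
`δ > 0` there are weights `u_0 ≥ u_1 ≥ … ≥ 1` on `Γ` with `u_i(g h) ≤ C exp (δ ℓ(g)) u_i(h)` such that for
`i < n` and every scale `r` there are `R` and `K` such that every real `i`-cycle `x` of the Rips complex
of scale `r` bounds an `(i + 1)`-chain `y` of the Rips complex of scale `R` with `‖y‖ ≤ K ‖x‖` in the
`ℓ¹`-norms with the weights `u_{i+1}` and `u_i`. The weights `(1 + ℓ)^p_i` give all the groups which are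
polynomially contractible in dimension `n` (fillings of polynomial size and diameter), the weights
`exp (δ_i ℓ)` all the groups with fillings of subexponential size and linear diameter. The proof shows
that (a) implies (b). -/
theorem Pool.Agent.Results.MP_df705a_gt.CombableGroups.result
    -- `M` is a closed manifold of dimension `n`
    (n k m : ℕ) (M : Type*) [TopologicalSpace M] [ChartedSpace (V n) M]
    [IsManifold 𝓘(ℝ, V n) ∞ M] [CompactSpace M]
    -- `(q, s)` is a smooth covering of `M × ℝᵏ`, `n + k = 2 m`
    (q : V (2 * m) → M) (s : V (2 * m) → V k) (H : StableCover (V n) q s) (e : n + k = 2 * m)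
    -- `Γ` is the group of its deck transformations, the fundamental group of `M`
    (Γ : Type*) [Group Γ] (a : Act Γ (2 * m)) (ha : UDeck a q s)
    -- `ℓ` is a proper length function on `Γ`
    (ℓ : Γ → ℝ) (hℓ : IsLength ℓ) (hfin : ∀ r, {γ | ℓ γ ≤ r}.Finite)
    -- `Γ` has good fillings or a good combing
    (hG : Fillable ℓ n ∨ ∃ σ, IsCombing ℓ σ)
    (g : Metric (V n) M) : ¬ PosScal g :=
  Pool.Agent.Lib.MP_df705a_gt.CGN.main H e ha hℓ hfin hG g
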