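import Pool.Agent.Lib.MP_df705a_gt.Kat.L11

open scoped Manifold ContDiff
open Bundle Module Pool.Agent.Lib.MP_df705a_gt.Twist Pool.Agent.Lib.MP_df705a_gt.Perm
open Pool.Agent.Lib.MP_df705a_gt.Pin Pool.Agent.Lib.MP_df705a_gt.Kat
open Pool.Agent.Lib.MP_df705a_gt.Coll (Met)

/-- **The very negative Ricci curvature of a metric of positive scalar curvature on a closed
aspherical manifold is as large as the manifold, even modulo parts which are small in the sense of
Kato.** For every `n = m + 1` and every `Λ` there is a constant `C > 0` such that the following holds.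
Let `M` be a closed `n`-manifold with a smooth covering `(q, s) : ℝⁿ⁺¹ → M × ℝ` (by Stallings every
closed aspherical manifold has such a covering), let `g` be an arbitrary Riemannian metric on `M`,
let `ρ > 0` be a function on `M` with `|dρ| ≤ 1`, let `w` be a smooth function with `1 ≤ w ≤ Λ`, let
`u > 0` be a smooth function and `γ ≥ 0`. Put `τ = ρ⁻² - Δw / ((n + 1) w)` and call the point `b` bad
if it is not true that `τ(b) ≥ 0` and `Ric ≥ -τ(b) g` at `b`, or if
`scal(b) u(b) - γ Δu(b) ≤ C (1 + γ) ρ(b)⁻² u(b)`. Let `A, U₁, …, Uₙ₋₁` be `n` open sets such that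
the image of `π₁(A, x)` in `π₁(M, x)` has infinite index for all `x ∈ A`, and the image of
`π₁(Uᵢ, x)` in `π₁(M, x)` is finite for all `x ∈ Uᵢ`. Then there are a bad point `b` and a point
`x ∉ A` with `d(x, b) < ρ(x)` such that the ball with radius `ρ(x)` about `x` is contained in none of
the sets `U₁, …, Uₙ₋₁`.

So the `n` sets do not cover the neighbourhood of the bad set at the scale `ρ`: this set needs `n + 1`
open sets which are trivial for `π₁`, as many as `M` itself (Lusternik-Schnirelmann), even if one of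
the sets is allowed to carry a subgroup of infinite index. For `Uᵢ = ∅`: every open set which contains
all `x` with `d(x, b) < ρ(x)` for a bad point `b` has a component whose fundamental group has an image
of finite index in `π₁(M)`.

For `w = 1` the condition on the Ricci curvature is `Ric ≥ -ρ⁻² g`. If `V ≥ 0` is a smooth function and
`Δw ≤ (n + 1) (ρ⁻² - V) w`, then the bad points are among the points where `Ric ≥ -V g` fails or the
condition on `scal` fails. By the lemma of Khas'minskii there is such a `w` with `Λ = 1 / (1 - c)` if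
`(n + 1) (-Δ + (n + 1) ρ⁻²)⁻¹ V ≤ c < 1`. So the lower bound of the Ricci curvature is only needed in
the sense of Kato classes: if `scal > σ > 0` (`γ = 0`, `u = 1`, `ρ = √(C/σ)`), the potential
`(-Δ + (n + 1) ρ⁻²)⁻¹ V` of every function `V` for which `{Ric ≥ -V g fails}` is not as large as `M` is
at least `c / (n + 1)` somewhere.

The definitions: `StableCover` is the covering `(q, s)`, `Met E M` is the type of the smooth
Riemannian metrics on `M`, `GradLeOne` is `|dρ| ≤ 1`, `BadK g C γ ρ w u b` says that `b` is bad,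
`mball g x r` is the open ball for the Riemannian distance (Mathlib: infimum of the lengths of `C¹`
paths), `piImage V x` is the image of `π₁(V, x)` in `π₁(M, x)`. -/
theorem Pool.Agent.Results.MP_df705a_gt.EssentialNegativity.result.{v} (m : ℕ) (Λ : ℝ) :
    ∃ C : ℝ, 0 < C ∧
    -- `M` is a closed manifold of dimension `m + 1`, `(q, s)` is a smooth covering of `M × ℝ`
    ∀ (M : Type v) [TopologicalSpace M] [ChartedSpace (EuclideanSpace ℝ (Fin (m + 1))) M]
      [IsManifold 𝓘(ℝ, EuclideanSpace ℝ (Fin (m + 1))) ∞ M] [CompactSpace M]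
      (q : EuclideanSpace ℝ (Fin (m + 2)) → M) (s : EuclideanSpace ℝ (Fin (m + 2)) → ℝ),
      StableCover (EuclideanSpace ℝ (Fin (m + 1))) q s →
    -- `g` is any smooth metric on `M`, `ρ` is the scale
    ∀ (g : Met (EuclideanSpace ℝ (Fin (m + 1))) M) (ρ : M → ℝ), (∀ x, 0 < ρ x) →
      ContMDiff 𝓘(ℝ, EuclideanSpace ℝ (Fin (m + 1))) 𝓘(ℝ, ℝ) 1 ρ → GradLeOne g ρ →
    -- the function `w`
    ∀ w : M → ℝ, ContMDiff 𝓘(ℝ, EuclideanSpace ℝ (Fin (m + 1))) 𝓘(ℝ, ℝ) ∞ w →
      (∀ x, 1 ≤ w x) → (∀ x, w x ≤ Λ) →
    -- the number `γ` and the function `u`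
    ∀ (γ : ℝ) (u : M → ℝ), 0 ≤ γ →
      ContMDiff 𝓘(ℝ, EuclideanSpace ℝ (Fin (m + 1))) 𝓘(ℝ, ℝ) ∞ u → (∀ x, 0 < u x) →
    -- the `m + 1` open sets
    ∀ (A : Set M) (U : Fin m → Set M), IsOpen A → (∀ i, IsOpen (U i)) →
      (∀ x : A, ¬ (piImage A x).FiniteIndex) → (∀ i, ∀ x : U i, Finite (piImage (U i) x)) →
    -- they do not cover the neighbourhood of the set of the bad points `b` at the scale `ρ`
    ∃ b x : M, BadK g C γ ρ w u b ∧ b ∈ mball g x (ρ x) ∧ x ∉ A ∧
      ∀ i, ¬ mball g x (ρ x) ⊆ U i :=
  essential_kato m Λ
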