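import Pool.Agent.Lib.MP_df705a_gt.RL.F5

open scoped Manifold ContDiff
open Pool.Agent.Lib.MP_df705a_gt.RLS Pool.Agent.Lib.MP_df705a_gt.Twist
open Pool.Agent.Lib.MP_df705a_gt.Pin (StableCover)

/-- **On a closed aspherical manifold of positive scalar curvature all products of random classes of
degree two vanish, and so do all products of the push-forwards of square integrable classes of
degree two of coverings.** There is no assumption on the fundamental group or on the dimension.

Let `M` be a closed `n`-manifold with a smooth covering `(q, s) : ℝ²ᵐ → M × ℝᵏ` (by Stallings every
closed aspherical manifold has such a covering for every `k ≥ 1` with `n + k = 2 m ≥ 5`; for `k = 0`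
this means that `ℝ²ᵐ` is the universal covering). Let `G` be the group of the deck transformations of
the covering `ℝ²ᵐ → M × Tᵏ` (`Deck`; it is isomorphic to `π₁(M) × ℤᵏ`), all of them orientation
preserving, and let `g` be a metric on `M`. Suppose that the scalar curvature of `g` is positive or,
more generally, that the operator `-(4N/(N-1)) Δ + scal`, `N = 2m`, of the metric
`lift g q s = q^* g + |ds|²` on `ℝ²ᵐ` has a positive lower bound `σ` on the smooth functions with
compact support. (So, if one of the numbers below is not zero, then for no metric on `M` the bottom of
the spectrum of `-(4N/(N-1)) Δ + scal` on the covering is positive, and the minimum of the scalar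
curvature of every metric is at most `-4N/(N-1)` times the bottom of the spectrum of `-Δ` on the
covering. For closed hyperbolic surfaces and 4-manifolds, with `k = 0`, this is an equality.)

Two-forms on `ℝ²ᵐ` are given by their matrices, and `pf (Ω₁, …, Ωₘ)` is `2ᵐ` times the coefficient of
`Ω₁ ∧ … ∧ Ωₘ`. `F` is a fundamental set: a bounded Borel set which contains exactly one point over
every point of `M × [0, 1)ᵏ` and no other points. Such sets exist, and the integrals over `F` are
integrals over `M × Tᵏ`.

(A) *Random classes* (`RandomVanish`). Let `G` act on a probability space `(X, P)`, preserving the
measure, and let `Ω₁, …, Ωₘ` be random closed two-forms on `ℝ²ᵐ` which are equivariant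
(`γ^* Ω(γ x) = Ω(x)` for almost all `x`) and whose derivatives of all orders are locally bounded by
random variables with all moments. Then the expectation of `∫_F Ω₁ ∧ … ∧ Ωₘ` is zero. (The classes of
such forms are the classes in the cohomology of `G` of degree two with coefficients in the functions
on `X` with all moments.)

(B) *Square integrable classes of coverings* (`BlocksVanish`). Let the `m` factors be distributed into
blocks, the factor `r` is in the block `b r = j`. For every block let `I j` be a countable set on
which `G` acts, and for every factor `r` let `(h r i)`, `i ∈ I (b r)`, be an equivariant family of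
closed two-forms such that the sums over `i` of the squares of the derivatives of every order are
locally bounded. If `I j = G / G'` this is a closed two-form on the covering `ℝ²ᵐ / G'` of `M × Tᵏ`
which is, with all derivatives, square integrable over the sheets (for example a closed form with
compact support, or a closed square integrable form which is harmonic for the lift of a metric on
`M × Tᵏ`). Every block has at least two factors or `I j` is finite. Then the product of the
push-forwards has integral zero: `∫_F ∑_i ⋀_r h r (i (b r)) = 0`, where `i` runs through the product
of the sets `I j`; the sum converges absolutely.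

(C) *Products* (`ProductVanish`). Let `G` be the product of the groups `Γ j` (for example the
fundamental group of a product of at least two closed aspherical manifolds, `k = 0`), let `α r` be a
closed two-form on `ℝ²ᵐ` which is invariant under the factors `Γ j` with `j ≠ b r` and square
summable, with all derivatives, over the translates by `Γ (b r)`, and let every factor `j` belong to
at least two forms. Then the integral of `α₁ ∧ … ∧ αₘ` over `ℝ²ᵐ` is zero. -/
theorem Pool.Agent.Results.MP_df705a_gt.RandomLineBundles.result.{u, v, w}
    -- `M` is a closed manifold of dimension `n`
    (n k m : ℕ) (M : Type v) [TopologicalSpace M] [ChartedSpace (V n) M]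
    [IsManifold 𝓘(ℝ, V n) ∞ M] [CompactSpace M]
    -- `(q, s)` is a smooth covering of `M × ℝᵏ`
    (q : V (2 * m) → M) (s : V (2 * m) → V k) (H : StableCover (V n) q s)
    -- `G` is the group of the deck transformations of the covering of `M × Tᵏ`
    (G : Type u) [Group G] (a : Act G (2 * m)) (ha : Deck a q s)
    -- they preserve the orientation
    (ori : ∀ γ y, 0 < (jac (a.act γ) y).det)
    -- `g` is a metric on `M` with positive scalar curvature, or `-κΔ + scal` is positive on the
    -- covering, `κ = 4N/(N-1)`, `N = 2m`
    (g : Metric (V n) M)
    (hg : PosScal g ∨ ∃ σ > 0, SpecGe (leb _) (lift g q s) (4 * (2 * m) / (2 * m - 1)) σ) :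
    (∃ F, FundSet q s F) ∧ RandomVanish.{u, v, w} a q s ∧ BlocksVanish.{u, v, w} a q s ∧
      ProductVanish.{u, w} a :=
  vanish H ha ori g hg
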