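import Pool.Agent.Lib.MP_df705a_gt.SV.Z5

open scoped Manifold ContDiff
open Pool.Agent.Lib.MP_df705a_gt.SVS
open Pool.Agent.Lib.MP_df705a_gt.Twist (PosScal)
open Pool.Agent.Lib.MP_df705a_gt.Pin (StableCover)

/-- **A closed aspherical manifold with a metric of positive scalar curvature has simplicial volume
zero.** There is no assumption on the fundamental group or on the dimension. More generally, the fundamental
class of such a manifold vanishes on all group cocycles of small exponential growth.

Let `M` be a closed `n`-manifold with a smooth covering `(q, s) : ℝ²ᵐ → M × ℝᵏ` (by Stallings every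
closed aspherical manifold has such a covering for every `k ≥ 1` with `n + k = 2 m ≥ 6`; for `k = 0`
this means that `ℝ²ᵐ` is the universal covering). Let `G` be the group of the deck transformations of
the covering `ℝ²ᵐ → M × Tᵏ` (`Deck`; it is isomorphic to `π₁(M) × ℤᵏ`), all of them orientation
preserving, and let `M` carry a metric of positive scalar curvature. Let `ℓ` be a length function on
`G`, for example a word length, or zero.

A function `χ` is a *partition* (`IsPart`) if it is smooth with compact support and the sum of its translates
`χ_γ(y) = χ(γ⁻¹ y)` is one. Such functions exist. For every one of them the numbers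
`z(h) = ∫ χ dχ_{h 1} ∧ … ∧ dχ_{h n} ∧ ds_1 ∧ … ∧ ds_k` (`fund`) are the coefficients of a cycle
`z = ∑ z(h) (1, h_1, …, h_n)` in the complex of the real chains of the group `G` (homogeneous simplices
modulo the action of `G`): it represents, up to the sign, the image of the fundamental class `[M]` in the
homology `H_n(G; ℝ)`, since for every cocycle `c` of `G` the number `∑ z(h) c(1, h)` is the integral over
`M × Tᵏ` of the product of the class of `c` with `ds_1 ∧ … ∧ ds_k`. (That `z` is a cycle follows from (A)
for the coboundaries of bounded cochains.)

The theorem: there is `δ > 0` such that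

(A) `∑ z(h) c(1, h) = 0` for every real homogeneous `n`-cocycle `c` of `G` with
`|c(g_0, …, g_n)| ≤ C exp (δ · diameter of {g_0, …, g_n})` (no condition on `C`); for example for
every bounded cocycle, and every cocycle of subexponential growth;

(B) for every `ε > 0` there is a finite chain `b` with `∑_h |z(h) - (∂b)(h)| exp (δ · diameter) < ε`.

The assertions (A) and (B) are two forms of one statement: each follows from the other by duality.

For `ℓ = 0` the assertion (B) says that the simplicial volume of `M` (the infimum of the `ℓ¹`-norms of the
real cycles of the class, for aspherical `M` computed in the group by Gromov's mapping theorem) is zero.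
Hence a closed aspherical manifold of positive simplicial volume has no metric of positive scalar
curvature. -/
theorem Pool.Agent.Results.MP_df705a_gt.SimplicialVolume.result
    -- `M` is a closed manifold of dimension `n`
    (n k m : ℕ) (M : Type*) [TopologicalSpace M] [ChartedSpace (V n) M]
    [IsManifold 𝓘(ℝ, V n) ∞ M] [CompactSpace M]
    -- `(q, s)` is a smooth covering of `M × ℝᵏ`, `n + k = 2 m`
    (q : V (2 * m) → M) (s : V (2 * m) → V k) (H : StableCover (V n) q s) (e : n + k = 2 * m)
    -- `G` is the group of the deck transformations of the covering of `M × Tᵏ`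
    (G : Type*) [Group G] (a : Act G (2 * m)) (ha : Deck a q s)
    -- they preserve the orientation
    (ori : ∀ γ y, 0 < jdet (a.act γ) y)
    -- `g` is a metric of positive scalar curvature on `M`
    (g : Metric (V n) M) (hg : PosScal g)
    -- `ℓ` is a length function on `G`
    (ℓ : G → ℝ) (hℓ : IsLength ℓ) :
    (∃ χ, IsPart a χ) ∧ ∃ δ : ℝ, 0 < δ ∧ ∀ χ, IsPart a χ →
      (Function.support (fund a χ s e)).Finite ∧
      (∀ c, IsCocycle ℓ δ c → ∑ᶠ h, fund a χ s e h * c (smp h) = 0) ∧
      ∀ ε : ℝ, 0 < ε → ∃ b : (Fin (n + 1) → G) →₀ ℝ,
        ∑ᶠ h, |fund a χ s e h - bdry b h| * Real.exp (δ * diam ℓ (smp h)) < ε :=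
  main H ha ori g hg e hℓ
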